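import Pool.Agent.Helper3_PPX.Geo

/-!
# LOC: the values of `θ` and `Λ` at a good place
-/

set_option autoImplicit false

universe u

namespace Pool.Agent.PPX.H75

open MvPolynomial PGH

section

variable {L E : Type u} [Field L] [Field E] [Algebra L E] (P : Place L E)

theorem ord_of_unit {y : E} (h0 : P.Ge 0 y) (h1 : ¬ P.Ge 1 y) : y ≠ 0 ∧ P.ord y = 0 := by
  have hy : y ≠ 0 := by
    rintro rfl
    exact h1 (P.ge_zero 1)
  refine ⟨hy, ?_⟩
  rw [P.ge_iff hy] at h0 h1
  omega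

theorem ge_inv {y : E} (hy : P.ord y = 0) : P.Ge 0 y⁻¹ := by
  have := P.ge_ord (y := y⁻¹)
  rwa [P.ord_inv, hy, neg_zero] at this

/-- congruence of the inverses -/
theorem inv_congr {x : E} {α β : L} (hne : α ≠ β) (hx : P.Ge 1 (x - algebraMap L E α)) :
    P.Ge 1 ((x - algebraMap L E β)⁻¹ - (algebraMap L E α - algebraMap L E β)⁻¹) := by
  have hc : α - β ≠ 0 := sub_ne_zero.mpr hne
  have hce : algebraMap L E α - algebraMap L E β ≠ 0 := by
    rw [← map_sub]
    exact (map_ne_zero _).mpr hc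
  have h0 : P.Ge 0 (x - algebraMap L E β) := by
    have h1 := (hx.mono (by norm_num : (0 : ℤ) ≤ 1)).add (P.ge_const (α - β))
    rw [map_sub] at h1
    have h2 : x - algebraMap L E α + (algebraMap L E α - algebraMap L E β) =
        x - algebraMap L E β := by ring
    rwa [h2] at h1
  have h1 : ¬ P.Ge 1 (x - algebraMap L E β) := by
    intro h
    have h2 := h.sub hx
    have h3 : x - algebraMap L E β - (x - algebraMap L E α) = algebraMap L E (α - β) := by
      rw [map_sub]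
      ring
    rw [h3] at h2
    exact P.not_ge_one_const hc h2
  obtain ⟨hy, hord⟩ := ord_of_unit P h0 h1
  have h4 : (x - algebraMap L E β)⁻¹ - (algebraMap L E α - algebraMap L E β)⁻¹ =
      -(x - algebraMap L E α) * ((x - algebraMap L E β)⁻¹ * algebraMap L E (α - β)⁻¹) := by
    rw [map_inv₀, map_sub]
    field_simp
    ring
  rw [h4]
  exact hx.neg.mul' ((ge_inv P hord).mul' (P.ge_const _) le_rfl) (by norm_num)

end

theorem loc : LocStmt.{u} := by
  classical
  intro L E _ _ _ _ _ P D N₁ N₂ a b x z i j ha hb hDa hDb hN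
  obtain ⟨⟨hD0, y0, hy1, hy2⟩, hx, hz⟩ := hN
  have hu0 : z - algebraMap L E (b j) ≠ 0 := by
    intro h
    rw [h, P.ord_zero] at hz
    exact absurd hz (by norm_num)
  have hx0 : x - algebraMap L E (a i) ≠ 0 := by
    intro h
    rw [h, P.ord_zero] at hx
    exact absurd hx (by norm_num)
  have hu1 : P.Ge 1 (z - algebraMap L E (b j)) := (P.ge_iff hu0).mpr hz.ge
  have hx1 : P.Ge 1 (x - algebraMap L E (a i)) := (P.ge_iff hx0).mpr hx.ge
  obtain ⟨u, hu⟩ : ∃ u, u = z - algebraMap L E (b j) := ⟨_, rfl⟩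
  rw [← hu] at hu0 hu1 hz
  have hDu : D u = D z := by rw [hu, map_sub, hDb, sub_zero]
  have hDz0 : P.Ge 0 (D z) := by
    rw [← hDu]
    exact hD0 u (hu1.mono (by norm_num))
  have hDz1 : ¬ P.Ge 1 (D z) := by
    intro h
    apply hy2
    have hw : P.Ge 0 (y0 / u) := by
      by_cases hy0 : y0 = 0
      · rw [hy0, zero_div]
        exact P.ge_zero 0
      · rw [P.ge_iff (div_ne_zero hy0 hu0), P.ord_div hy0 hu0, hz]
        rw [P.ge_iff hy0] at hy1
        omega
    have h2 : y0 = (y0 / u) * u := (div_mul_cancel₀ y0 hu0).symm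
    rw [h2, D.leibniz, smul_eq_mul, smul_eq_mul, hDu]
    exact (hw.mul' h (by norm_num)).add (hu1.mul' (hD0 _ hw) (by norm_num))
  obtain ⟨hDz, hordDz⟩ := ord_of_unit P hDz0 hDz1
  have hDzi : P.Ge 0 (D z)⁻¹ := ge_inv P hordDz
  obtain ⟨δ, hδa⟩ : ∃ δ : Derivation ℤ E E, ∀ y, δ y = (D z)⁻¹ * D y :=
    ⟨(D z)⁻¹ • D, fun y => rfl⟩
  have hδ0 : ∀ y, P.Ge 0 y → P.Ge 0 (δ y) := by
    intro y hy
    rw [hδa]
    exact hDzi.mul' (hD0 y hy) (by norm_num)
  have hδu : δ u = 1 := by rw [hδa, hDu, inv_mul_cancel₀ hDz]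
  obtain ⟨η, hη⟩ : ∃ η, η = (x - algebraMap L E (a i)) / u := ⟨_, rfl⟩
  have hxη : x - algebraMap L E (a i) = η * u := by rw [hη, div_mul_cancel₀ _ hu0]
  have hη0 : η ≠ 0 := by rw [hη]; exact div_ne_zero hx0 hu0
  have hηord : P.ord η = 0 := by rw [hη, P.ord_div hx0 hu0, hx, hz]; norm_num
  have hηge : P.Ge 0 η := (P.ge_iff hη0).mpr hηord.ge
  have hηn : ¬ P.Ge 1 η := by
    rw [P.ge_iff hη0, hηord]
    norm_num
  obtain ⟨θ, hθ⟩ : ∃ θ, θ = th D x z := ⟨_, rfl⟩
  have hθη : θ = η + u * δ η := by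
    have h1 : θ = δ x := by rw [hθ, th, hδa, div_eq_mul_inv, mul_comm]
    have h2 : δ x = δ (x - algebraMap L E (a i)) := by
      rw [map_sub, hδa (algebraMap L E (a i)), hDa, mul_zero, sub_zero]
    rw [h1, h2, hxη, δ.leibniz, smul_eq_mul, smul_eq_mul, hδu, mul_one]
  have hd1 : P.Ge 1 (θ - η) := by
    rw [hθη, add_sub_cancel_left]
    exact hu1.mul' (hδ0 η hηge) (by norm_num)
  have hθge : P.Ge 0 θ := by
    have := (hd1.mono (by norm_num : (0 : ℤ) ≤ 1)).add hηge
    rwa [sub_add_cancel] at this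
  have hθn : ¬ P.Ge 1 θ := by
    intro h
    have := h.sub hd1
    rw [sub_sub_cancel] at this
    exact hηn this
  obtain ⟨hθ0, hθord⟩ := ord_of_unit P hθge hθn
  rw [← hθ, ← hu, ← hη]
  refine ⟨hd1, hθord, ?_⟩
  -- the third statement
  have hδθ : δ θ = 2 * δ η + u * δ (δ η) := by
    rw [hθη, map_add, δ.leibniz, smul_eq_mul, smul_eq_mul, hδu]
    ring
  have hla : la D (fun i => algebraMap L E (a i)) (fun j => algebraMap L E (b j)) x z =
      δ θ / θ - 2 * (∑ l, θ * (x - algebraMap L E (a l))⁻¹ -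
        ∑ l, (z - algebraMap L E (b l))⁻¹) := by
    have e1 : ∑ l, D x / (x - algebraMap L E (a l)) =
        D z * ∑ l, θ * (x - algebraMap L E (a l))⁻¹ := by
      rw [Finset.mul_sum]
      refine Finset.sum_congr rfl fun l _ => ?_
      have : D x = D z * θ := by
        rw [hθ, th, mul_div_cancel₀ _ hDz]
      rw [this, div_eq_mul_inv, mul_assoc]
    have e2 : ∑ l, D z / (z - algebraMap L E (b l)) =
        D z * ∑ l, (z - algebraMap L E (b l))⁻¹ := by
      rw [Finset.mul_sum]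
      refine Finset.sum_congr rfl fun l _ => ?_
      rw [div_eq_mul_inv]
    rw [la, ← hθ, e1, e2, hδa]
    field_simp
  have s1 := Finset.add_sum_erase Finset.univ
    (fun l => θ * (x - algebraMap L E (a l))⁻¹) (Finset.mem_univ i)
  have s2 := Finset.add_sum_erase Finset.univ
    (fun l => (z - algebraMap L E (b l))⁻¹) (Finset.mem_univ j)
  have t1 : algebraMap L E (slope a i) = 2 * ∑ l ∈ Finset.univ.erase i,
      (algebraMap L E (a i) - algebraMap L E (a l))⁻¹ := by
    rw [slope, map_sum, Finset.mul_sum]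
    refine Finset.sum_congr rfl fun l _ => ?_
    rw [map_div₀, map_ofNat, map_sub, div_eq_mul_inv]
  have t2 : algebraMap L E (slope b j) = 2 * ∑ l ∈ Finset.univ.erase j,
      (algebraMap L E (b j) - algebraMap L E (b l))⁻¹ := by
    rw [slope, map_sum, Finset.mul_sum]
    refine Finset.sum_congr rfl fun l _ => ?_
    rw [map_div₀, map_ofNat, map_sub, div_eq_mul_inv]
  have g1 : P.Ge 1 (∑ l ∈ Finset.univ.erase i, (θ * (x - algebraMap L E (a l))⁻¹ -
      θ * (algebraMap L E (a i) - algebraMap L E (a l))⁻¹)) := by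
    refine Place.Ge.sum fun l hl => ?_
    rw [← mul_sub]
    exact hθge.mul' (inv_congr P (fun h => Finset.ne_of_mem_erase hl (ha h).symm) hx1)
      (by norm_num)
  have g2 : P.Ge 1 (∑ l ∈ Finset.univ.erase j, ((z - algebraMap L E (b l))⁻¹ -
      (algebraMap L E (b j) - algebraMap L E (b l))⁻¹)) := by
    refine Place.Ge.sum fun l hl => ?_
    rw [hu] at hu1
    exact inv_congr P (fun h => Finset.ne_of_mem_erase hl (hb h).symm) hu1
  rw [Finset.sum_sub_distrib, ← Finset.mul_sum, ← Finset.mul_sum] at g1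
  rw [Finset.sum_sub_distrib] at g2
  rw [← Finset.mul_sum] at s1
  have g3 : P.Ge 1 (δ θ / θ - 2 * (θ * (x - algebraMap L E (a i))⁻¹) +
      2 * (z - algebraMap L E (b j))⁻¹) := by
    have h1 : δ θ / θ - 2 * (θ * (x - algebraMap L E (a i))⁻¹) +
        2 * (z - algebraMap L E (b j))⁻¹ =
        u * (δ (δ η) * θ⁻¹) + (2 * δ η) * (-(θ - η) * (θ⁻¹ * η⁻¹)) := by
      rw [← hu, hxη, hδθ]
      have h2 : u * δ η = θ - η := by rw [hθη]; ring
      field_simp
      linear_combination (2 * θ) * h2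
    rw [h1]
    refine Place.Ge.add ?_ ?_
    · exact hu1.mul' ((hδ0 _ (hδ0 _ hηge)).mul' (ge_inv P hθord) le_rfl) (by norm_num)
    · have h2 : P.Ge 0 ((2 : E) * δ η) := by
        have : (2 : E) * δ η = δ η + δ η := by ring
        rw [this]
        exact (hδ0 _ hηge).add (hδ0 _ hηge)
      exact h2.mul' (hd1.neg.mul' ((ge_inv P hθord).mul' (ge_inv P hηord) le_rfl) le_rfl)
        (by norm_num)
  have key : la D (fun i => algebraMap L E (a i)) (fun j => algebraMap L E (b j)) x z -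
      (algebraMap L E (slope b j) - algebraMap L E (slope a i) * θ) =
      (δ θ / θ - 2 * (θ * (x - algebraMap L E (a i))⁻¹) + 2 * (z - algebraMap L E (b j))⁻¹) -
      ((θ * ∑ l ∈ Finset.univ.erase i, (x - algebraMap L E (a l))⁻¹ -
        θ * ∑ l ∈ Finset.univ.erase i, (algebraMap L E (a i) - algebraMap L E (a l))⁻¹) +
       (θ * ∑ l ∈ Finset.univ.erase i, (x - algebraMap L E (a l))⁻¹ -
        θ * ∑ l ∈ Finset.univ.erase i, (algebraMap L E (a i) - algebraMap L E (a l))⁻¹)) +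
      ((∑ l ∈ Finset.univ.erase j, (z - algebraMap L E (b l))⁻¹ -
        ∑ l ∈ Finset.univ.erase j, (algebraMap L E (b j) - algebraMap L E (b l))⁻¹) +
       (∑ l ∈ Finset.univ.erase j, (z - algebraMap L E (b l))⁻¹ -
        ∑ l ∈ Finset.univ.erase j, (algebraMap L E (b j) - algebraMap L E (b l))⁻¹)) := by
    rw [hla, t1, t2, ← s1, ← s2]
    ring
  rw [key]
  exact (g3.sub (g1.add g1)).add (g2.add g2)

end Pool.Agent.PPX.H75

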