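import Mathlib
import Pool.Agent.Helper3_PPX.Stmts

/-!
# GPE: the general position holds for general `b`
-/

set_option autoImplicit false

universe u

namespace Pool.Agent.PPX.H75

open MvPolynomial

variable {N : ℕ}

/-- `∏ (X j - X l)` over `l ≠ j` -/
noncomputable def Dp (j : Fin N) : MvPolynomial (Fin N) ℚ :=
  ∏ l ∈ Finset.univ.erase j, (X j - X l)

/-- the numerator of the slope -/
noncomputable def Tp (j : Fin N) : MvPolynomial (Fin N) ℚ :=
  ∑ l ∈ Finset.univ.erase j, 2 * ∏ i ∈ (Finset.univ.erase j).erase l, (X j - X i)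

/-- the exponents -/
abbrev KK (m n : ℕ) : Type := Fin (m + 1) × Fin (n + 1)

/-- the matrix of the conditions -/
noncomputable def Mp (m n : ℕ) (f : KK m n → Fin N) :
    Matrix (KK m n) (KK m n) (MvPolynomial (Fin N) ℚ) :=
  fun a c => X (f a) ^ (c.1 : ℕ) * Tp (f a) ^ (c.2 : ℕ) * Dp (f a) ^ (n - (c.2 : ℕ))

/-- the exponent after the specialisation -/
def ex (m n : ℕ) (c : KK m n) : ℕ := (c.1 : ℕ) + (m + 1) * (n - (c.2 : ℕ))

theorem ex_inj (m n : ℕ) : Function.Injective (ex m n) := by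
  intro c d h
  unfold ex at h
  have hc1 := c.1.2
  have hd1 := d.1.2
  have hc2 := c.2.2
  have hd2 := d.2.2
  have h1 : (c.1 : ℕ) = d.1 := by
    have := congrArg (· % (m + 1)) h
    simp only [Nat.add_mul_mod_self_left] at this
    rwa [Nat.mod_eq_of_lt hc1, Nat.mod_eq_of_lt hd1] at this
  have h2 : (n - (c.2 : ℕ)) = n - (d.2 : ℕ) := by
    rw [h1] at h
    exact Nat.eq_of_mul_eq_mul_left (Nat.succ_pos m) (Nat.add_left_cancel h)
  refine Prod.ext (Fin.ext h1) (Fin.ext ?_)
  omega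

theorem ex_lt (m n : ℕ) (c : KK m n) : ex m n c < (m + 1) * (n + 1) := by
  unfold ex
  have hc1 := c.1.2
  have : (m + 1) * (n - (c.2 : ℕ)) ≤ (m + 1) * n := Nat.mul_le_mul_left _ (Nat.sub_le _ _)
  have h2 : (m + 1) * (n + 1) = (m + 1) * n + (m + 1) := by ring
  omega

/-- the Vandermonde argument -/
theorem vdm (m n : ℕ) (y p : KK m n → ℚ) (hy : Function.Injective y) (hp : ∀ a, p a ≠ 0) :
    (Matrix.of fun a c : KK m n => y a ^ (c.1 : ℕ) * (2 * p a) ^ (c.2 : ℕ) *
      (y a ^ (m + 1) * p a) ^ (n - (c.2 : ℕ))).det ≠ 0 := by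
  intro h0
  obtain ⟨v, hv, hv0⟩ := Matrix.exists_mulVec_eq_zero_iff.mpr h0
  apply hv
  have hent : ∀ a c : KK m n, y a ^ (c.1 : ℕ) * (2 * p a) ^ (c.2 : ℕ) *
      (y a ^ (m + 1) * p a) ^ (n - (c.2 : ℕ)) = p a ^ n * (2 ^ (c.2 : ℕ) * y a ^ ex m n c) := by
    intro a c
    have hc2 := c.2.2
    have : p a ^ n = p a ^ (c.2 : ℕ) * p a ^ (n - (c.2 : ℕ)) := by
      rw [← pow_add]
      congr 1
      omega
    rw [this, ex, pow_add (y a) (c.1 : ℕ) ((m + 1) * (n - (c.2 : ℕ))), pow_mul (y a),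
      mul_pow 2 (p a), mul_pow (y a ^ (m + 1)) (p a)]
    ring
  set Q : Polynomial ℚ := ∑ c : KK m n, Polynomial.C (2 ^ (c.2 : ℕ) * v c) *
    Polynomial.X ^ ex m n c with hQ
  have hev : ∀ a, Q.eval (y a) = 0 := by
    intro a
    have h1 := congrFun hv0 a
    rw [Matrix.mulVec, dotProduct, Pi.zero_apply] at h1
    have h2 : p a ^ n * Q.eval (y a) = 0 := by
      rw [hQ, Polynomial.eval_finsetSum, Finset.mul_sum, ← h1]
      refine Finset.sum_congr rfl fun c _ => ?_
      rw [Matrix.of_apply, hent]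
      simp only [Polynomial.eval_mul, Polynomial.eval_C, Polynomial.eval_pow, Polynomial.eval_X]
      ring
    rcases mul_eq_zero.mp h2 with h3 | h3
    · exact absurd h3 (pow_ne_zero n (hp a))
    · exact h3
  have hdeg : Q.natDegree < Fintype.card (KK m n) := by
    rw [Fintype.card_prod, Fintype.card_fin, Fintype.card_fin]
    have h4 : Q.natDegree ≤ (m + 1) * (n + 1) - 1 := by
      refine Polynomial.natDegree_sum_le_of_forall_le _ _ fun c _ => ?_
      refine (Polynomial.natDegree_C_mul_X_pow_le _ _).trans ?_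
      have := ex_lt m n c
      omega
    have h5 : 0 < (m + 1) * (n + 1) := by positivity
    omega
  have hQ0 : Q = 0 := Polynomial.eq_zero_of_natDegree_lt_card_of_eval_eq_zero Q hy hev hdeg
  funext c
  have h6 := congrArg (fun q => Polynomial.coeff q (ex m n c)) hQ0
  simp only [hQ, Polynomial.finsetSum_coeff, Polynomial.coeff_C_mul_X_pow,
    Polynomial.coeff_zero] at h6
  rw [Finset.sum_eq_single c] at h6
  · rw [if_pos rfl] at h6
    rcases mul_eq_zero.mp h6 with h7 | h7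
    · exact absurd h7 (by positivity)
    · exact h7
  · intro d _ hd
    rw [if_neg]
    intro h8
    exact hd (ex_inj m n h8).symm
  · intro h9
    exact absurd (Finset.mem_univ _) h9

/-- the value of `y` -/
def yy (m n : ℕ) (a : KK m n) : ℚ := (a.1 : ℕ) + ((m : ℚ) + 1) * (a.2 : ℕ) + 1

theorem yy_pos (m n : ℕ) (a : KK m n) : 0 < yy m n a := by
  unfold yy
  positivity

theorem yy_inj (m n : ℕ) : Function.Injective (yy m n) := by
  intro c d h
  unfold yy at h
  have h' : (c.1 : ℕ) + (m + 1) * (c.2 : ℕ) = (d.1 : ℕ) + (m + 1) * (d.2 : ℕ) := by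
    have : (((c.1 : ℕ) + (m + 1) * (c.2 : ℕ) : ℕ) : ℚ) =
        (((d.1 : ℕ) + (m + 1) * (d.2 : ℕ) : ℕ) : ℚ) := by
      push_cast
      linarith
    exact_mod_cast this
  have hc1 := c.1.2
  have hd1 := d.1.2
  have h1 : (c.1 : ℕ) = d.1 := by
    have := congrArg (· % (m + 1)) h'
    simp only [Nat.add_mul_mod_self_left] at this
    rwa [Nat.mod_eq_of_lt hc1, Nat.mod_eq_of_lt hd1] at this
  have h2 : (c.2 : ℕ) = d.2 := by
    rw [h1] at h'
    exact Nat.eq_of_mul_eq_mul_left (Nat.succ_pos m) (Nat.add_left_cancel h')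
  exact Prod.ext (Fin.ext h1) (Fin.ext h2)

theorem Mp_ne (m n : ℕ) (f : KK m n → Fin N) (hf : Function.Injective f)
    (hN : 2 * ((m + 1) * (n + 1)) ≤ N) : (Mp m n f).det ≠ 0 := by
  classical
  -- the complement
  obtain ⟨g0⟩ : Nonempty (KK m n ↪ {l : Fin N // l ∉ Set.range f}) := by
    refine Function.Embedding.nonempty_of_card_le ?_
    rw [Fintype.card_subtype_compl, Fintype.card_fin]
    have h1 : Fintype.card {l : Fin N // l ∈ Set.range f} = Fintype.card (KK m n) :=
      Set.card_range_of_injective hf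
    have h2 : Fintype.card (KK m n) = (m + 1) * (n + 1) := by
      rw [Fintype.card_prod, Fintype.card_fin, Fintype.card_fin]
    rw [h1, h2]
    omega
  set g : KK m n → Fin N := fun a => (g0 a : Fin N) with hg
  have hginj : Function.Injective g := fun a c h => g0.injective (Subtype.ext h)
  have hgf : ∀ a c, g a ≠ f c := fun a c h => (g0 a).2 ⟨c, h.symm⟩
  set y := yy m n with hy
  -- the point
  set bb : Fin N → Polynomial ℚ := Function.extend f (fun a => Polynomial.C (y a))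
    (Function.extend g (fun a => Polynomial.C (y a) - Polynomial.C (y a ^ (m + 1)) *
      Polynomial.X) 0) with hbb
  have bf : ∀ a, bb (f a) = Polynomial.C (y a) := fun a => hf.extend_apply _ _ a
  have bg : ∀ a, bb (g a) = Polynomial.C (y a) - Polynomial.C (y a ^ (m + 1)) *
      Polynomial.X := by
    intro a
    rw [hbb, Function.extend_apply' _ _ _ (by
      rintro ⟨c, hc⟩
      exact hgf a c hc.symm)]
    exact hginj.extend_apply _ _ a
  have bo : ∀ l, (∀ a, f a ≠ l) → (∀ a, g a ≠ l) → bb l = 0 := by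
    intro l h1 h2
    rw [hbb, Function.extend_apply' _ _ _ (by
      rintro ⟨c, hc⟩
      exact h1 c hc), Function.extend_apply' _ _ _ (by
      rintro ⟨c, hc⟩
      exact h2 c hc)]
    rfl
  -- the values at `0`
  set P : KK m n → Polynomial ℚ := fun a =>
    ∏ i ∈ (Finset.univ.erase (f a)).erase (g a), (Polynomial.C (y a) - bb i) with hP
  have hP0 : ∀ a, (P a).eval 0 ≠ 0 := by
    intro a
    rw [hP]
    simp only [Polynomial.eval_prod]
    rw [Finset.prod_ne_zero_iff]
    intro i hi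
    rw [Finset.mem_erase, Finset.mem_erase] at hi
    rw [Polynomial.eval_sub, Polynomial.eval_C]
    by_cases h1 : ∃ c, f c = i
    · obtain ⟨c, hc⟩ := h1
      rw [← hc, bf, Polynomial.eval_C]
      intro h
      have : a = c := yy_inj m n (sub_eq_zero.mp h)
      exact hi.2.1 (by rw [← hc, this])
    · by_cases h2 : ∃ c, g c = i
      · obtain ⟨c, hc⟩ := h2
        rw [← hc, bg, Polynomial.eval_sub, Polynomial.eval_mul, Polynomial.eval_X, mul_zero,
          sub_zero, Polynomial.eval_C]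
        intro h
        have : a = c := yy_inj m n (sub_eq_zero.mp h)
        exact hi.1 (by rw [← hc, this])
      · rw [bo i (fun c hc => h1 ⟨c, hc⟩) (fun c hc => h2 ⟨c, hc⟩), Polynomial.eval_zero, sub_zero]
        exact (yy_pos m n a).ne'
  -- the images
  set φ : MvPolynomial (Fin N) ℚ →ₐ[ℚ] Polynomial ℚ := aeval bb with hφ
  have hmem : ∀ a, g a ∈ Finset.univ.erase (f a) := fun a =>
    Finset.mem_erase.mpr ⟨hgf a a, Finset.mem_univ _⟩
  have hD : ∀ a, φ (Dp (f a)) = (Polynomial.C (y a ^ (m + 1)) * P a) * Polynomial.X := by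
    intro a
    rw [hφ, Dp, map_prod, ← Finset.mul_prod_erase _ _ (hmem a)]
    simp only [map_sub, aeval_X]
    rw [bf, bg, hP]
    ring
  set T : KK m n → Polynomial ℚ := fun a => φ (Tp (f a)) with hT
  have hT0 : ∀ a, (T a).eval 0 = 2 * (P a).eval 0 := by
    intro a
    rw [hT]
    simp only [hφ, Tp, map_sum, map_mul, map_ofNat, map_prod, map_sub, aeval_X]
    rw [Polynomial.eval_finsetSum, Finset.sum_eq_single_of_mem (g a) (hmem a)]
    · rw [Polynomial.eval_mul, bf, hP]
      simp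
    · intro l hl hlg
      rw [Polynomial.eval_mul, Polynomial.eval_prod,
        Finset.prod_eq_zero (i := g a) (Finset.mem_erase.mpr ⟨fun h => hlg h.symm, hmem a⟩),
        mul_zero]
      rw [bf, bg]
      simp
  intro h0
  have h1 := congrArg φ h0
  rw [map_zero, AlgHom.map_det] at h1
  set M' : Matrix (KK m n) (KK m n) (Polynomial ℚ) := fun a c =>
    Polynomial.C (y a) ^ (c.1 : ℕ) * T a ^ (c.2 : ℕ) *
      (Polynomial.C (y a ^ (m + 1)) * P a) ^ (n - (c.2 : ℕ)) with hM'
  have h2 : φ.mapMatrix (Mp m n f) = M' * Matrix.diagonal fun c : KK m n =>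
      (Polynomial.X : Polynomial ℚ) ^ (n - (c.2 : ℕ)) := by
    refine Matrix.ext fun a c => ?_
    rw [Matrix.mul_diagonal, AlgHom.mapMatrix_apply, Matrix.map_apply]
    show φ (X (f a) ^ (c.1 : ℕ) * Tp (f a) ^ (c.2 : ℕ) * Dp (f a) ^ (n - (c.2 : ℕ))) =
      (Polynomial.C (y a) ^ (c.1 : ℕ) * T a ^ (c.2 : ℕ) *
      (Polynomial.C (y a ^ (m + 1)) * P a) ^ (n - (c.2 : ℕ))) * Polynomial.X ^ (n - (c.2 : ℕ))
    rw [map_mul, map_mul, map_pow, map_pow, map_pow, hD, mul_pow _ Polynomial.X]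
    have : φ (X (f a)) = Polynomial.C (y a) := by
      rw [hφ, aeval_X, bf]
    rw [this, mul_assoc, mul_assoc, mul_assoc]
  rw [h2, Matrix.det_mul, Matrix.det_diagonal] at h1
  have h3 : ∏ c : KK m n, (Polynomial.X : Polynomial ℚ) ^ (n - (c.2 : ℕ)) ≠ 0 :=
    Finset.prod_ne_zero_iff.mpr fun c _ => pow_ne_zero _ Polynomial.X_ne_zero
  have h4 : M'.det = 0 := (mul_eq_zero.mp h1).resolve_right h3
  have h5 := congrArg (Polynomial.evalRingHom (0 : ℚ)) h4
  rw [map_zero, RingHom.map_det] at h5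
  apply vdm m n y (fun a => (P a).eval 0) (yy_inj m n) hP0
  refine Eq.trans (congrArg Matrix.det ?_) h5
  refine Matrix.ext fun a c => ?_
  rw [RingHom.mapMatrix_apply, Matrix.map_apply, Matrix.of_apply]
  show _ = Polynomial.eval 0 (Polynomial.C (y a) ^ (c.1 : ℕ) * T a ^ (c.2 : ℕ) *
      (Polynomial.C (y a ^ (m + 1)) * P a) ^ (n - (c.2 : ℕ)))
  rw [Polynomial.eval_mul, Polynomial.eval_mul, Polynomial.eval_pow, Polynomial.eval_pow,
    Polynomial.eval_pow, Polynomial.eval_mul, Polynomial.eval_C, Polynomial.eval_C, hT0]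

/-- the exponent vector -/
noncomputable def fs {m n : ℕ} (c : KK m n) : Fin 2 →₀ ℕ :=
  Finsupp.equivFunOnFinite.symm ![(c.1 : ℕ), (c.2 : ℕ)]

theorem fs_inj (m n : ℕ) : Function.Injective (fs (m := m) (n := n)) := by
  intro c d h
  have h1 := Finsupp.equivFunOnFinite.symm.injective h
  have h2 := congrFun h1 0
  have h3 := congrFun h1 1
  simp only [Matrix.cons_val_zero, Matrix.cons_val_one] at h2 h3
  exact Prod.ext (Fin.ext h2) (Fin.ext h3)

/-- the value of a polynomial of bounded degrees -/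
theorem eval_box {k : Type u} [Field k] (m n : ℕ) (G : MvPolynomial (Fin 2) k)
    (h0 : degreeOf 0 G ≤ m) (h1 : degreeOf 1 G ≤ n) (β τ : k) :
    eval ![β, τ] G = ∑ c : KK m n, coeff (fs c) G * (β ^ (c.1 : ℕ) * τ ^ (c.2 : ℕ)) := by
  classical
  rw [eval_eq']
  have h2 : ∑ c : KK m n, coeff (fs c) G * (β ^ (c.1 : ℕ) * τ ^ (c.2 : ℕ)) =
      ∑ d ∈ Finset.univ.image (fs (m := m) (n := n)), coeff d G * (β ^ d 0 * τ ^ d 1) := by
    rw [Finset.sum_image (fun a _ b _ h => fs_inj m n h)]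
    rfl
  rw [h2]
  have h3 : ∀ d : Fin 2 →₀ ℕ, ∏ i, (![β, τ] : Fin 2 → k) i ^ d i = β ^ d 0 * τ ^ d 1 := by
    intro d
    rw [Fin.prod_univ_two]
    rfl
  simp only [h3]
  refine Finset.sum_subset ?_ ?_
  · intro d hd
    have hd0 := (degreeOf_le_iff.mp h0) d hd
    have hd1 := (degreeOf_le_iff.mp h1) d hd
    rw [Finset.mem_image]
    refine ⟨(⟨d 0, by omega⟩, ⟨d 1, by omega⟩), Finset.mem_univ _, ?_⟩
    ext i
    fin_cases i
    · rfl
    · rfl
  · intro d _ hd
    rw [notMem_support_iff.mp hd, zero_mul]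

/-- the slope -/
theorem aeval_Tp {k : Type u} [Field k] [CharZero k] (b : Fin N → k) (hb : Function.Injective b)
    (j : Fin N) : aeval b (Tp j) = slope b j * aeval b (Dp j) := by
  rw [Tp, Dp, slope, Finset.sum_mul, map_sum]
  refine Finset.sum_congr rfl fun l hl => ?_
  have hlj : l ≠ j := Finset.ne_of_mem_erase hl
  have hne : b j - b l ≠ 0 := sub_ne_zero.mpr fun h => hlj (hb h).symm
  rw [← Finset.mul_prod_erase _ _ hl, map_mul, map_ofNat, map_mul]
  simp only [map_sub, aeval_X]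
  field_simp

theorem Dp_ne {k : Type u} [Field k] [CharZero k] (b : Fin N → k) (hb : Function.Injective b)
    (j : Fin N) : aeval b (Dp j) ≠ 0 := by
  rw [Dp, map_prod, Finset.prod_ne_zero_iff]
  intro l hl
  rw [map_sub, aeval_X, aeval_X]
  exact sub_ne_zero.mpr fun h => (Finset.ne_of_mem_erase hl) (hb h).symm

theorem gp_of (m n : ℕ) (f : KK m n → Fin N) {k : Type u} [Field k] [CharZero k] (b : Fin N → k)
    (hb : Function.Injective b) (hM : aeval b (Mp m n f).det ≠ 0) (G : MvPolynomial (Fin 2) k)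
    (hG : G ≠ 0) (h0 : degreeOf 0 G ≤ m) (h1 : degreeOf 1 G ≤ n)
    (hv : ∀ a, eval ![b (f a), slope b (f a)] G = 0) : False := by
  classical
  apply hM
  rw [AlgHom.map_det]
  rw [← Matrix.exists_mulVec_eq_zero_iff]
  refine ⟨fun c => coeff (fs c) G, ?_, ?_⟩
  · intro h
    apply hG
    ext d
    rw [coeff_zero]
    by_contra hd
    have hd' : d ∈ G.support := mem_support_iff.mpr hd
    have hd0 := (degreeOf_le_iff.mp h0) d hd'
    have hd1 := (degreeOf_le_iff.mp h1) d hd'
    apply hd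
    have := congrFun h (⟨d 0, by omega⟩, ⟨d 1, by omega⟩)
    refine Eq.trans ?_ this
    show coeff d G = coeff _ G
    refine congrArg (fun e => coeff e G) ?_
    ext i
    fin_cases i
    · rfl
    · rfl
  · funext a
    rw [Matrix.mulVec, dotProduct, Pi.zero_apply]
    have h2 := hv a
    rw [eval_box m n G h0 h1] at h2
    have h3 : (aeval b (Dp (f a))) ^ n * ∑ c : KK m n, coeff (fs c) G *
        (b (f a) ^ (c.1 : ℕ) * slope b (f a) ^ (c.2 : ℕ)) = 0 := by
      rw [h2, mul_zero]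
    rw [← h3, Finset.mul_sum]
    refine Finset.sum_congr rfl fun c _ => ?_
    have hc2 := c.2.2
    have h4 : (aeval b (Dp (f a))) ^ n = (aeval b (Dp (f a))) ^ (c.2 : ℕ) *
        (aeval b (Dp (f a))) ^ (n - (c.2 : ℕ)) := by
      rw [← pow_add]
      congr 1
      omega
    have h5 : (aeval b).mapMatrix (Mp m n f) a c = b (f a) ^ (c.1 : ℕ) *
        (slope b (f a) * aeval b (Dp (f a))) ^ (c.2 : ℕ) *
        (aeval b (Dp (f a))) ^ (n - (c.2 : ℕ)) := by
      rw [AlgHom.mapMatrix_apply, Matrix.map_apply]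
      show aeval b (X (f a) ^ (c.1 : ℕ) * Tp (f a) ^ (c.2 : ℕ) * Dp (f a) ^ (n - (c.2 : ℕ))) = _
      rw [map_mul, map_mul, map_pow, map_pow, map_pow, aeval_X, aeval_Tp b hb]
    rw [h5, h4, mul_pow]
    ring

theorem gpe : GpeStmt.{u} := by
  classical
  intro N
  set Ψ : Fin N × Fin N → MvPolynomial (Fin N) ℚ := fun q =>
    if 2 * (((q.1 : ℕ) + 1) * ((q.2 : ℕ) + 1)) ≤ N then
      ∏ f : KK q.1 q.2 ↪ Fin N, (Mp q.1 q.2 f).det else 1 with hΨ
  refine ⟨∏ q, Ψ q, ?_, ?_⟩
  · refine Finset.prod_ne_zero_iff.mpr fun q _ => ?_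
    rw [hΨ]
    simp only
    split_ifs with h
    · exact Finset.prod_ne_zero_iff.mpr fun f _ => Mp_ne _ _ f f.injective h
    · exact one_ne_zero
  · intro k _ _ b hb hΦ m n G J hmn hG h0 h1 hJ
    by_contra hcard
    rw [not_lt] at hcard
    have hm : m < N := by nlinarith
    have hn : n < N := by nlinarith
    obtain ⟨f0⟩ : Nonempty (KK m n ↪ J) := by
      refine Function.Embedding.nonempty_of_card_le ?_
      rw [Fintype.card_coe, Fintype.card_prod, Fintype.card_fin, Fintype.card_fin]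
      exact hcard
    have h2 : aeval b (Ψ (⟨m, hm⟩, ⟨n, hn⟩)) ≠ 0 := by
      rw [map_prod] at hΦ
      exact (Finset.prod_ne_zero_iff.mp hΦ) _ (Finset.mem_univ _)
    rw [hΨ] at h2
    simp only at h2
    rw [if_pos hmn, map_prod] at h2
    have h3 := (Finset.prod_ne_zero_iff.mp h2) (f0.trans (Function.Embedding.subtype _))
      (Finset.mem_univ _)
    exact gp_of m n _ b hb h3 G hG h0 h1 fun a => hJ _ (f0 a).2

end Pool.Agent.PPX.H75

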